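import Pool.Agent.Q295.BZ.Stm

/-!
# JOB BZ-DOM: `(1 + K S)^p` is integrable
-/

set_option autoImplicit false

namespace Pool.Agent.Q153.BZ

open Pool.Agent.Q295.BZ MeasureTheory

universe u

theorem dom : Pool.Agent.Q295.BZ.S_DOM.{u} := by
  intro Ω mΩ P hP S hS hS0 hint K hK p hp
  have hmeas : Measurable (fun ω => (1 + K * S ω) ^ p) :=
    ((hS.const_mul K).const_add 1).pow_const p
  have hbound : Integrable (fun ω => (2 : ℝ) ^ (⌈p⌉₊ - 1) *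
      (1 + K ^ ⌈p⌉₊ * S ω ^ ⌈p⌉₊)) P :=
    ((integrable_const (1 : ℝ)).add ((hint ⌈p⌉₊).const_mul _)).const_mul _
  refine hbound.mono' hmeas.aestronglyMeasurable (Filter.Eventually.of_forall fun ω => ?_)
  have h1 : 0 ≤ K * S ω := mul_nonneg hK (hS0 ω)
  have h2 : (1 : ℝ) ≤ 1 + K * S ω := by linarith
  rw [Real.norm_of_nonneg (Real.rpow_nonneg (by linarith) p)]
  calc (1 + K * S ω) ^ p ≤ (1 + K * S ω) ^ ((⌈p⌉₊ : ℕ) : ℝ) :=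
        Real.rpow_le_rpow_of_exponent_le h2 (Nat.le_ceil p)
    _ = (1 + K * S ω) ^ ⌈p⌉₊ := Real.rpow_natCast _ _
    _ ≤ (2 : ℝ) ^ (⌈p⌉₊ - 1) * (1 ^ ⌈p⌉₊ + (K * S ω) ^ ⌈p⌉₊) :=
        add_pow_le zero_le_one h1 _
    _ = (2 : ℝ) ^ (⌈p⌉₊ - 1) * (1 + K ^ ⌈p⌉₊ * S ω ^ ⌈p⌉₊) := by
        rw [one_pow, mul_pow]

end Pool.Agent.Q153.BZ
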