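import Pool.Agent.Q295.BZ.Stm

/-!
# JOB BZ-GEN: values of the generator
-/

set_option autoImplicit false

namespace Pool.Agent.Q153.BZ

open Pool.Agent.Q295.BZ
open scoped Real

theorem gen_value (d : ℕ) (i : Fin d) (z : ℝ) :
    Pool.Agent.Q295.BZ.gen (fun j => if j = i then z else 0) = |z| * Real.sin |z| := by
  have h : ∑ j : Fin d, (if j = i then z else 0) ^ 2 = z ^ 2 := by
    rw [Finset.sum_eq_single i]
    · simp
    · intro b _ hb
      simp [hb]
    · intro h
      exact absurd (Finset.mem_univ i) h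
  unfold Pool.Agent.Q295.BZ.gen
  rw [h, Real.sqrt_sq_eq_abs]

theorem plus_value (m : ℕ) :
    |2 * π * m + π / 2| * Real.sin |2 * π * m + π / 2| = 2 * π * m + π / 2 := by
  have hpi := Real.pi_pos
  have h0 : 0 ≤ 2 * π * m + π / 2 := by positivity
  rw [abs_of_nonneg h0]
  have h1 : Real.sin (2 * π * m + π / 2) = 1 := by
    have h2 : 2 * π * m + π / 2 = π / 2 + m * (2 * π) := by ring
    rw [h2, Real.sin_add_nat_mul_two_pi, Real.sin_pi_div_two]
  rw [h1, mul_one]

theorem minus_value (m : ℕ) :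
    |2 * π * m - π / 2| * Real.sin |2 * π * m - π / 2| = π / 2 - 2 * π * m := by
  have hpi := Real.pi_pos
  rcases Nat.eq_zero_or_pos m with h0 | h0
  · subst h0
    have h1 : (2 * π * ((0 : ℕ) : ℝ) - π / 2) = -(π / 2) := by
      push_cast
      ring
    rw [h1, abs_neg, abs_of_pos (by positivity), Real.sin_pi_div_two]
    push_cast
    ring
  · have hm : (1 : ℝ) ≤ m := by exact_mod_cast h0
    have h1 : 0 ≤ 2 * π * m - π / 2 := by nlinarith
    rw [abs_of_nonneg h1]
    have h3 : Real.sin (2 * π * m - π / 2) = -1 := by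
      have h2 : 2 * π * m - π / 2 = -(π / 2) + m * (2 * π) := by ring
      rw [h2, Real.sin_add_nat_mul_two_pi, Real.sin_neg, Real.sin_pi_div_two]
    rw [h3]
    ring

theorem gen : Pool.Agent.Q295.BZ.S_GEN :=
  ⟨gen_value, fun m => ⟨plus_value m, minus_value m⟩⟩

end Pool.Agent.Q153.BZ
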